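import Mathlib
import Pool.Agent.J4H39.SC.Stm

set_option autoImplicit false

/-!
Project SM: the probability that one cluster of coalescing walks carries almost everything is `ε ^ (2 ρ + o(1))`.
`cw`, `iw`, `U` as in project SC (file `SC/Stm`); `t_ONE` (`J4H49.SC.Nc`), `t_TAIL` (`J4H79.SC.Tail`), `t_HIT`, `iw_prod`
(`J4H2.SC.Hit`), `cw_mono_ord` (`J4H49.SC.Nc`), `U_erf` (L2) are proved.
-/

namespace Pool.Agent.J4H39.SM

open Finset Filter Real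
open Pool.Agent.J4H39.SC (ncl)

/-- all walkers except the first (number `0`) are at the same position -/
def Same {k : ℕ} (y : Fin (k + 1) → ℤ) : Prop := ∀ i j : Fin k, y i.succ = y j.succ

/-- (SUP) upper bound.  With `L = log k` and a small `h > 0` some `z i.succ` is in
`[s/2 + √((1-h) L / 2) √s, s/2 + (√((1-h) L / 2) + h) √s)` and some `z j.succ` in the mirror interval, except with
probability `≤ 2 exp (- k ^ (h/2) ...)` (`iw_prod` with factor `1` for the walker `0`; or `t_HIT` for `Fin k` and a projection);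
then `cw ≤ 1 - U (2 n) (2 d)` (`t_ONE`) with `d ≥ 2 √((1-h) L / 2) √s`, and `1 - U (2 n) (2 d) ≈ erfc (d / √n) ≤ exp (- d ^ 2 / n)`
uniformly as `n → ∞` (`U_erf`, `k` fixed). -/
def S_SUP : Prop := ∀ ρ η : ℝ, 0 < ρ → 0 < η → ∃ k₀ : ℕ, ∀ k ≥ k₀, ∃ (s₀ : ℕ) (γ : ℝ), 0 < γ ∧
  ∀ s n : ℕ, s₀ ≤ s → |(s : ℝ) - ρ * n| ≤ γ * n →
    iw (cw (fun y : Fin (k + 1) → ℤ => id1 (Same y)) n) s (fun _ => 0) ≤ (k : ℝ) ^ (-(2 * ρ - η))

/-- (SLO) lower bound.  By `t_TAIL` all `|z i - s/2| ≤ √((1+h) s log k / 2)` with probability `≥ 1/2`; then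
`cw (fun y => id1 (all y i equal)) n z = cw (fun y => id1 (y i₀ = y i₁)) n z = 1 - U (2 n) (2 d)` for the least and the
greatest of the `z i` (`cw_mono_ord`, `t_ONE`), `d ≤ 2 √((1+h) s log k / 2)`, and `1 - U (2 n) (2 d) ≈ erfc (d / √n) ≥ exp (- (1+h) d ^ 2 / n)`
for large `k`. -/
def S_SLO : Prop := ∀ ρ η : ℝ, 0 < ρ → 0 < η → ∃ k₀ : ℕ, ∀ k ≥ k₀, ∃ (s₀ : ℕ) (γ : ℝ), 0 < γ ∧
  ∀ s n : ℕ, s₀ ≤ s → |(s : ℝ) - ρ * n| ≤ γ * n →
    (k : ℝ) ^ (-(2 * ρ + η)) ≤ iw (cw (fun y : Fin (k + 1) → ℤ => id1 (Same y)) n) s (fun _ => 0)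

/-- (ERF) the tail of the error function: `Erf x = (2/√π) ∫_0^x exp (-u^2)`. -/
def S_ERF : Prop := (∀ x : ℝ, 0 ≤ x → 1 - Erf x ≤ Real.exp (-x ^ 2)) ∧
  ∀ x : ℝ, 0 ≤ x → Real.exp (-(x + 1) ^ 2) / 2 ≤ 1 - Erf x

/-- (P1) no value is taken by more than `(1 - ε) H` of the `v h`: `k` random ones are seldom equal (sum of `k`-th powers). -/
def S_P1 : Prop := ∀ (H k : ℕ) (ε : ℝ) (v : Fin H → ℤ), 0 ≤ ε → ε ≤ 1 → 1 ≤ H → 1 ≤ k →
  (∀ w : ℤ, ε * H < ((univ.filter fun h => v h ≠ w).card : ℝ)) →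
  ((univ.filter fun g : Fin k → Fin H => ∀ i j, v (g i) = v (g j)).card : ℝ) ≤ (1 - ε) ^ (k - 1) * (H : ℝ) ^ k

/-- (P2) the converse. -/
def S_P2 : Prop := ∀ (H k : ℕ) (ε : ℝ) (v : Fin H → ℤ) (w : ℤ), 0 ≤ ε → ε ≤ 1 →
  ((univ.filter fun h => v h ≠ w).card : ℝ) ≤ ε * H →
  (1 - ε) ^ k * (H : ℝ) ^ k ≤ ((univ.filter fun g : Fin k → Fin H => ∀ i j, v (g i) = v (g j)).card : ℝ)

end Pool.Agent.J4H39.SM
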