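import Mathlib
import Pool.Agent.J4H39.SM.Stm
import Pool.Agent.J4H39.SC.T2

set_option autoImplicit false

/-! Project SM: the transfer to the integers. -/

namespace Pool.Agent.J4H39.SM

open Finset Filter Real
open Pool.Agent.J4H39.SC (ncl vw sum_id1 card_fun close)
open Pool.Agent.J4H26.KT (Adm fW obT wm Tp mnK_sum window_law)

/-- the test function of the event `Same` -/
noncomputable def tS (k : ℕ) (_ : Fin (k + 1) → ℝ) (p : Fin (k + 1) → Fin (k + 1) → Prop) : ℝ :=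
  id1 (∀ i j : Fin k, p i.succ j.succ)

theorem tS_adm (k : ℕ) : Adm (tS k) := by
  refine ⟨fun u p => ?_, fun u v p => ?_⟩
  · unfold tS
    rw [abs_of_nonneg (id1_nonneg _)]
    exact id1_le_one _
  · unfold tS
    rw [sub_self, abs_zero]
    exact norm_nonneg _

theorem tS_fW (k : ℕ) (t : ℝ) : fW (tS k) t = fun z => id1 (Same z) := by
  funext z
  unfold fW tS Same
  rfl

/-- the part of `k`-tuples of elements of the window with the same image -/
noncomputable def A (t H k : ℕ) (n : ℤ) : ℝ :=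
  ((univ.filter fun g : Fin k → Fin H => ∀ i j, vw t H n (g i) = vw t H n (g j)).card : ℝ) / (H : ℝ) ^ k

theorem wm_eq {k N H t : ℕ} (x : ℤ) : wm k N H x (obT (tS k) t) = (∑ v : Fin N, A t H k (x + ((v : ℕ) : ℤ))) / N := by
  unfold wm mn
  have e : ∀ n : ℤ, mnK k (fun _ => n + 1) (fun _ => H) (fun u => obT (tS k) t (Fin.cons n u)) = A t H k n := by
    intro n
    rw [mnK_sum k (n + 1) H]
    unfold A
    rw [← sum_id1]
    congr 1
  simp only [e]
  rw [Finset.sum_range]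

theorem A_nonneg (t H k : ℕ) (n : ℤ) : 0 ≤ A t H k n := by unfold A; positivity

theorem A_le_one (t H k : ℕ) (n : ℤ) (hH : 1 ≤ H) : A t H k n ≤ 1 := by
  unfold A
  have : (0 : ℝ) < (H : ℝ) ^ k := by
    have : (0 : ℝ) < H := by exact_mod_cast hH
    positivity
  rw [div_le_one this, ← card_fun]
  exact_mod_cast card_filter_le _ _

/-- one image carries almost everything -/
def G (ε : ℝ) (t H : ℕ) (n : ℤ) : Prop := ∃ w : ℤ, ((univ.filter fun h => vw t H n h ≠ w).card : ℝ) ≤ ε * H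

open Classical in
theorem sum_lo (h1 : S_P1) {ε : ℝ} (hε : 0 ≤ ε) (hε1 : ε ≤ 1) {t H k N : ℕ} (hH : 1 ≤ H) (hk : 1 ≤ k) (x : ℤ) :
    ∑ v : Fin N, A t H k (x + ((v : ℕ) : ℤ)) ≤ ((univ.filter fun v : Fin N => G ε t H (x + ((v : ℕ) : ℤ))).card : ℝ) +
      (1 - ε) ^ (k - 1) * N := by
  have hH0 : (0 : ℝ) < (H : ℝ) ^ k := by
    have : (0 : ℝ) < H := by exact_mod_cast hH
    positivity
  have key : ∀ v : Fin N, A t H k (x + ((v : ℕ) : ℤ)) ≤ (if G ε t H (x + ((v : ℕ) : ℤ)) then 1 else 0) + (1 - ε) ^ (k - 1) := by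
    intro v
    have hp : 0 ≤ (1 - ε) ^ (k - 1) := by
      have : 0 ≤ 1 - ε := by linarith
      positivity
    split_ifs with hG
    · have := A_le_one t H k (x + ((v : ℕ) : ℤ)) hH
      linarith
    · unfold G at hG
      push Not at hG
      have h := h1 H k ε (vw t H (x + ((v : ℕ) : ℤ))) hε hε1 hH hk hG
      unfold A
      rw [zero_add, div_le_iff₀ hH0]
      refine le_trans (le_of_eq ?_) h
      congr!
  refine (sum_le_sum fun v _ => key v).trans ?_
  rw [sum_add_distrib, sum_const, card_univ, Fintype.card_fin, nsmul_eq_mul, Finset.card_filter]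
  push_cast
  linarith

open Classical in
theorem sum_up (h2 : S_P2) {ε : ℝ} (hε : 0 ≤ ε) (hε1 : ε ≤ 1) {t H k N : ℕ} (hH : 1 ≤ H) (x : ℤ) :
    ((univ.filter fun v : Fin N => G ε t H (x + ((v : ℕ) : ℤ))).card : ℝ) * (1 - ε) ^ k ≤
      ∑ v : Fin N, A t H k (x + ((v : ℕ) : ℤ)) := by
  have hH0 : (0 : ℝ) < (H : ℝ) ^ k := by
    have : (0 : ℝ) < H := by exact_mod_cast hH
    positivity
  rw [Finset.card_filter]
  push_cast
  rw [sum_mul]
  apply sum_le_sum
  intro v _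
  split_ifs with hG
  · obtain ⟨w, hw⟩ := hG
    have h := h2 H k ε (vw t H (x + ((v : ℕ) : ℤ))) w hε hε1 hw
    unfold A
    rw [one_mul, le_div_iff₀ hH0]
    refine h.trans (le_of_eq ?_)
    congr!
  · rw [zero_mul]
    exact A_nonneg _ _ _ _

open Classical in
/-- both bounds for the number of good `n`, from the model -/
theorem count_good (h1 : S_P1) (h2 : S_P2) {k N H t s : ℕ} (hH : 1 ≤ H) (hk : 1 ≤ k) (x : ℤ) {δ q ε : ℝ} (hε : 0 ≤ ε) (hε1 : ε ≤ 1)
    (hw : ∀ f : (Fin (k + 1) → ℝ) → (Fin (k + 1) → Fin (k + 1) → Prop) → ℝ, Adm f →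
      |wm k N H x (obT f t) - J4H26.KT.iw (J4H26.KT.cw (fW f (t : ℕ)) (t - s)) s (fun _ => 0)| ≤ δ)
    (hq : q = iw (cw (fun y : Fin (k + 1) → ℤ => id1 (Same y)) (t - s)) s (fun _ => 0)) :
    (q - δ - (1 - ε) ^ (k - 1)) * N ≤ ((univ.filter fun v : Fin N => G ε t H (x + ((v : ℕ) : ℤ))).card : ℝ) ∧
    ((univ.filter fun v : Fin N => G ε t H (x + ((v : ℕ) : ℤ))).card : ℝ) * (1 - ε) ^ k ≤ (q + δ) * N := by
  have h := hw (tS k) (tS_adm k)
  have e1 : J4H26.KT.iw (J4H26.KT.cw (fW (tS k) (t : ℕ)) (t - s)) s (fun _ => 0) = q := by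
    rw [hq, iw_eq, tS_fW]
    congr 1
    funext z
    exact (cw_eq _ _ z).symm
  rw [e1, wm_eq] at h
  rcases Nat.eq_zero_or_pos N with hN | hN
  · subst hN
    simp
  have hN0 : (0 : ℝ) < N := by exact_mod_cast hN
  obtain ⟨ha, hb⟩ := abs_le.1 h
  have ha' : (q - δ) * N ≤ ∑ v : Fin N, A t H k (x + ((v : ℕ) : ℤ)) := by
    rw [← le_div_iff₀ hN0]; linarith
  have hb' : ∑ v : Fin N, A t H k (x + ((v : ℕ) : ℤ)) ≤ (q + δ) * N := by
    rw [← div_le_iff₀ hN0]; linarith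
  have g1 := sum_lo h1 hε hε1 (t := t) (N := N) hH hk x
  have g2 := sum_up h2 hε hε1 (t := t) (k := k) (N := N) hH x
  constructor
  · have : (q - δ - (1 - ε) ^ (k - 1)) * N = (q - δ) * N - (1 - ε) ^ (k - 1) * N := by ring
    rw [this]
    linarith
  · linarith

end Pool.Agent.J4H39.SM
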