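import Mathlib
import Pool.Agent.J4H39.SM.T
import Pool.Agent.J4H39.Z5

set_option autoImplicit false

/-! Project SM: choice of the parameters and the theorem for the integers. -/

namespace Pool.Agent.J4H39.SM

open Finset Filter Real
open Pool.Agent.J4H39.SC (ncl vw sum_id1 card_fun close)
open Pool.Agent.J4H26.KT (Adm fW obT wm Tp mnK_sum window_law)

theorem exp_ge {a c d : ℝ} (ha : 0 < a) : ∀ᶠ L : ℝ in atTop, c + d * L ≤ Real.exp (a * L) := by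
  have h1 : Tendsto (fun L : ℝ => Real.exp (a * L) / L) atTop atTop := by
    have h2 := (Real.tendsto_exp_div_pow_atTop 1).comp (tendsto_id.const_mul_atTop ha)
    have h3 := h2.const_mul_atTop ha
    refine h3.congr' ?_
    filter_upwards [eventually_gt_atTop 0] with L hL
    simp only [Function.comp_apply, id_eq, pow_one]
    field_simp
  filter_upwards [h1.eventually_ge_atTop (|c| + |d|), eventually_ge_atTop 1] with L h2 h3
  have hL0 : 0 < L := by linarith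
  rw [le_div_iff₀ hL0] at h2
  have h4 : c ≤ |c| * L := (le_abs_self c).trans (le_mul_of_one_le_right (abs_nonneg c) h3)
  have h5 : d * L ≤ |d| * L := mul_le_mul_of_nonneg_right (le_abs_self d) hL0.le
  linarith

theorem par_lo {ρ η : ℝ} (hρ : 0 < ρ) (hη : 0 < η) (k₁ : ℕ) : ∃ L₀ : ℝ, ∀ L ≥ L₀, ∃ k : ℕ, k₁ ≤ k ∧ 1 ≤ k ∧
    3 * Real.exp (-L) ^ (2 * ρ + η) ≤ (k : ℝ) ^ (-(2 * ρ + η / 2)) ∧
    (1 - Real.exp (-L)) ^ (k - 1) ≤ Real.exp (-L) ^ (2 * ρ + η) := by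
  obtain ⟨b, hb⟩ : ∃ b, b = 2 * ρ + η / 2 := ⟨_, rfl⟩
  have hb0 : 0 < b := by rw [hb]; positivity
  obtain ⟨a, ha⟩ : ∃ a, a = η / 4 / b := ⟨_, rfl⟩
  have ha0 : 0 < a := by rw [ha]; positivity
  have hab : a * b = η / 4 := by rw [ha]; field_simp
  have e1 := exp_ge (a := η / 4) (c := 3 * (2 : ℝ) ^ b) (d := 0) (by positivity)
  have e2 := exp_ge (a := a) (c := 1) (d := 2 * ρ + η) ha0
  obtain ⟨L₁, hL₁⟩ := eventually_atTop.1 (e1.and e2)
  refine ⟨max (max L₁ k₁) 0, fun L hL => ?_⟩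
  simp only [ge_iff_le, max_le_iff] at hL
  obtain ⟨⟨g1, g2⟩, g3⟩ := hL
  obtain ⟨f1, f2⟩ := hL₁ L g1
  rw [zero_mul, add_zero] at f1
  have hE : 1 ≤ Real.exp ((1 + a) * L) := Real.one_le_exp (by positivity)
  refine ⟨⌈Real.exp ((1 + a) * L)⌉₊, ?_, ?_, ?_, ?_⟩
  · have h1 : (k₁ : ℝ) ≤ ⌈Real.exp ((1 + a) * L)⌉₊ := by
      refine le_trans ?_ (Nat.le_ceil _)
      have := Real.add_one_le_exp ((1 + a) * L)
      nlinarith
    exact_mod_cast h1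
  · exact Nat.one_le_ceil_iff.2 (Real.exp_pos _)
  · rw [← hb]
    have h1 : (⌈Real.exp ((1 + a) * L)⌉₊ : ℝ) ≤ 2 * Real.exp ((1 + a) * L) := by
      have h2 := (Nat.ceil_lt_add_one (Real.exp_pos ((1 + a) * L)).le).le
      linarith
    have h0 : (0 : ℝ) < ⌈Real.exp ((1 + a) * L)⌉₊ := by
      have := Nat.le_ceil (Real.exp ((1 + a) * L))
      linarith
    have h3 : (2 * Real.exp ((1 + a) * L)) ^ (-b) ≤ (⌈Real.exp ((1 + a) * L)⌉₊ : ℝ) ^ (-b) :=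
      Real.rpow_le_rpow_of_nonpos h0 h1 (by linarith)
    refine le_trans ?_ h3
    rw [Real.mul_rpow (by norm_num) (Real.exp_pos _).le, ← Real.exp_mul, ← Real.exp_mul]
    have e3 : Real.exp ((1 + a) * L * -b) = Real.exp (-L * (2 * ρ + η)) * Real.exp (η / 4 * L) := by
      rw [← Real.exp_add]
      congr 1
      have : (1 + a) * L * -b = -L * (b + a * b) := by ring
      rw [this, hab, hb]
      ring
    rw [e3, Real.rpow_neg (by norm_num)]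
    have h4 : (0 : ℝ) < (2 : ℝ) ^ b := by positivity
    have h5 : 3 ≤ ((2 : ℝ) ^ b)⁻¹ * Real.exp (η / 4 * L) := by
      rw [inv_mul_eq_div, le_div_iff₀ h4]
      exact f1
    calc 3 * Real.exp (-L * (2 * ρ + η)) ≤ ((2 : ℝ) ^ b)⁻¹ * Real.exp (η / 4 * L) * Real.exp (-L * (2 * ρ + η)) :=
          mul_le_mul_of_nonneg_right h5 (Real.exp_pos _).le
      _ = _ := by ring
  · obtain ⟨m, hm⟩ : ∃ m, m = ⌈Real.exp ((1 + a) * L)⌉₊ := ⟨_, rfl⟩
    rw [← hm]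
    have hm1 : Real.exp ((1 + a) * L) ≤ m := by rw [hm]; exact Nat.le_ceil _
    have hm2 : 1 ≤ m := by rw [hm]; exact Nat.one_le_ceil_iff.2 (Real.exp_pos _)
    have hx0 : 0 ≤ 1 - Real.exp (-L) := by
      have : Real.exp (-L) ≤ 1 := Real.exp_le_one_iff.2 (by linarith)
      linarith
    have h1 : 1 - Real.exp (-L) ≤ Real.exp (-Real.exp (-L)) := by
      have := Real.add_one_le_exp (-Real.exp (-L))
      linarith
    refine (pow_le_pow_left₀ hx0 h1 _).trans ?_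
    rw [← Real.exp_nat_mul, ← Real.exp_mul, Real.exp_le_exp]
    have h2 : ((m - 1 : ℕ) : ℝ) = m - 1 := by rw [Nat.cast_sub hm2]; simp
    rw [h2]
    have h3 : Real.exp (a * L) ≤ m * Real.exp (-L) := by
      have : Real.exp (a * L) = Real.exp ((1 + a) * L) * Real.exp (-L) := by rw [← Real.exp_add]; ring_nf
      rw [this]
      exact mul_le_mul_of_nonneg_right hm1 (Real.exp_pos _).le
    have h4 : Real.exp (-L) ≤ 1 := Real.exp_le_one_iff.2 (by linarith)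
    nlinarith

theorem par_up {ρ η : ℝ} (hη : 0 < η) (hρη : 0 < 2 * ρ - η) (k₂ : ℕ) : ∃ L₀ : ℝ, ∀ L ≥ L₀, ∃ k : ℕ, k₂ ≤ k ∧ 1 ≤ k ∧
    1 / 2 ≤ (1 - Real.exp (-L)) ^ k ∧ (k : ℝ) ^ (-(2 * ρ - η / 2)) ≤ Real.exp (-L) ^ (2 * ρ - η) / 4 := by
  obtain ⟨c, hc⟩ : ∃ c, c = 2 * ρ - η / 2 := ⟨_, rfl⟩
  have hc0 : 0 < c := by rw [hc]; linarith
  have e1 := exp_ge (a := η / 2) (c := (4 : ℝ) ^ c * 4) (d := 0) (by positivity)
  obtain ⟨L₁, hL₁⟩ := eventually_atTop.1 e1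
  refine ⟨max (max L₁ (2 * k₂ + 4)) 4, fun L hL => ?_⟩
  simp only [ge_iff_le, max_le_iff] at hL
  obtain ⟨⟨g1, g2⟩, g3⟩ := hL
  have f1 := hL₁ L g1
  rw [zero_mul, add_zero] at f1
  have hE : L + 1 ≤ Real.exp L := Real.add_one_le_exp L
  obtain ⟨k, hk⟩ : ∃ k, k = ⌊Real.exp L / 2⌋₊ := ⟨_, rfl⟩
  have hk1 : (k : ℝ) ≤ Real.exp L / 2 := by rw [hk]; exact Nat.floor_le (by positivity)
  have hk2 : Real.exp L / 2 < k + 1 := by rw [hk]; exact Nat.lt_floor_add_one _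
  have hk3 : Real.exp L / 4 ≤ k := by linarith
  have hL0 : 0 < L := by linarith
  refine ⟨k, ?_, ?_, ?_, ?_⟩
  · have : (k₂ : ℝ) ≤ k := by linarith
    exact_mod_cast this
  · have : (1 : ℝ) ≤ k := by linarith
    exact_mod_cast this
  · have h1 : -2 ≤ -Real.exp (-L) := by
      have : Real.exp (-L) ≤ 1 := Real.exp_le_one_iff.2 (by linarith)
      linarith
    have h2 := one_add_mul_le_pow h1 k
    have h3 : (k : ℝ) * Real.exp (-L) ≤ 1 / 2 := by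
      have h4 := mul_le_mul_of_nonneg_right hk1 (Real.exp_pos (-L)).le
      have h5 : Real.exp L / 2 * Real.exp (-L) = 1 / 2 := by
        rw [div_mul_eq_mul_div, ← Real.exp_add]; simp
      linarith
    have h4 : 1 + (k : ℝ) * -Real.exp (-L) ≤ (1 - Real.exp (-L)) ^ k := by
      rw [sub_eq_add_neg]; exact h2
    linarith
  · rw [← hc]
    have h0 : (0 : ℝ) < Real.exp L / 4 := by positivity
    have h3 : (k : ℝ) ^ (-c) ≤ (Real.exp L / 4) ^ (-c) := Real.rpow_le_rpow_of_nonpos h0 hk3 (by linarith)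
    refine h3.trans ?_
    rw [Real.div_rpow (Real.exp_pos _).le (by norm_num), ← Real.exp_mul, ← Real.exp_mul, Real.rpow_neg (by norm_num), div_inv_eq_mul]
    have e3 : Real.exp (-L * (2 * ρ - η)) = Real.exp (L * -c) * Real.exp (η / 2 * L) := by
      rw [← Real.exp_add, hc]
      congr 1
      ring
    rw [e3]
    have := mul_le_mul_of_nonneg_left f1 (Real.exp_pos (L * -c)).le
    linarith

open Classical in
theorem main_one (hS : S_SUP) (hL : S_SLO) (h1 : S_P1) (h2 : S_P2) {θ τ : ℝ} (hθ : 0 < θ) (hθ1 : θ < 1)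
    (hτθ : θ < τ * th0) (hτ1 : τ * th0 < 1) {η : ℝ} (hη : 0 < η) :
    ∃ ε₀ : ℝ, 0 < ε₀ ∧ ∀ ε : ℝ, 0 < ε → ε ≤ ε₀ → ∀ᶠ N : ℕ in atTop, ∀ x : ℤ,
      ε ^ (2 * (θ / (τ * th0 - θ)) + η) * N ≤
        ((univ.filter fun v : Fin N => G ε (tN τ N) (HN θ N) (x + ((v : ℕ) : ℤ))).card : ℝ) ∧
      ((univ.filter fun v : Fin N => G ε (tN τ N) (HN θ N) (x + ((v : ℕ) : ℤ))).card : ℝ) ≤
        ε ^ (2 * (θ / (τ * th0 - θ)) - η) * N := by
  obtain ⟨ρ, hρ⟩ : ∃ ρ, ρ = θ / (τ * th0 - θ) := ⟨_, rfl⟩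
  have hρ0 : 0 < ρ := by rw [hρ]; exact div_pos hθ (by linarith)
  rw [← hρ]
  obtain ⟨k₁, hk₁⟩ := hL ρ (η / 2) hρ0 (by positivity)
  obtain ⟨k₂, hk₂⟩ := hS ρ (η / 2) hρ0 (by positivity)
  obtain ⟨L₁, hp₁⟩ := par_lo hρ0 hη k₁
  obtain ⟨L₂, hp₂⟩ : ∃ L₂ : ℝ, 0 < 2 * ρ - η → ∀ L ≥ L₂, ∃ k : ℕ, k₂ ≤ k ∧ 1 ≤ k ∧
      1 / 2 ≤ (1 - Real.exp (-L)) ^ k ∧ (k : ℝ) ^ (-(2 * ρ - η / 2)) ≤ Real.exp (-L) ^ (2 * ρ - η) / 4 := by
    by_cases h : 0 < 2 * ρ - η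
    · obtain ⟨L₂, h2⟩ := par_up hη h k₂
      exact ⟨L₂, fun _ => h2⟩
    · exact ⟨0, fun h' => absurd h' h⟩
  refine ⟨Real.exp (-max (max L₁ L₂) 0), Real.exp_pos _, ?_⟩
  intro ε hε hεle
  obtain ⟨L, hLe⟩ : ∃ L, L = Real.log (1 / ε) := ⟨_, rfl⟩
  have hεL : ε = Real.exp (-L) := by
    rw [hLe, one_div, Real.log_inv, neg_neg, Real.exp_log hε]
  have hLL : max (max L₁ L₂) 0 ≤ L := by
    rw [hεL, Real.exp_le_exp] at hεle
    linarith
  simp only [max_le_iff] at hLL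
  obtain ⟨⟨l1, l2⟩, l3⟩ := hLL
  have hε1 : ε ≤ 1 := by rw [hεL]; exact Real.exp_le_one_iff.2 (by linarith)
  -- lower bound
  obtain ⟨k, a1, a2, a3, a4⟩ := hp₁ L l1
  rw [← hεL] at a3 a4
  obtain ⟨s₁, γ₁, hγ₁, c1⟩ := hk₁ k a1
  have hd1 : 0 < ε ^ (2 * ρ + η) := Real.rpow_pos_of_pos hε _
  have hlo : ∀ᶠ N : ℕ in atTop, ∀ x : ℤ, ε ^ (2 * ρ + η) * N ≤
        ((univ.filter fun v : Fin N => G ε (tN τ N) (HN θ N) (x + ((v : ℕ) : ℤ))).card : ℝ) := by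
    filter_upwards [window_law t_CONT t_UNEQ k hθ hθ1 hτθ hτ1 hd1, close hθ hτθ s₁ hγ₁,
      (HN_tendsto hθ).eventually_ge_atTop 1] with N w1 d1 hH
    intro x
    rw [← hρ] at d1
    have m1 := c1 _ _ d1.1 d1.2
    have h3 := (count_good h1 h2 (N := N) hH a2 x (ε := ε) hε.le hε1 (w1.2 x) rfl).1
    refine le_trans ?_ h3
    apply mul_le_mul_of_nonneg_right _ (Nat.cast_nonneg N)
    linarith
  have hup : ∀ᶠ N : ℕ in atTop, ∀ x : ℤ,
        ((univ.filter fun v : Fin N => G ε (tN τ N) (HN θ N) (x + ((v : ℕ) : ℤ))).card : ℝ) ≤ ε ^ (2 * ρ - η) * N := by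
    by_cases hc : 0 < 2 * ρ - η
    · obtain ⟨k', b1, b2, b3, b4⟩ := hp₂ hc L l2
      rw [← hεL] at b3 b4
      obtain ⟨s₂, γ₂, hγ₂, c2⟩ := hk₂ k' b1
      have hd2 : 0 < ε ^ (2 * ρ - η) / 4 := by positivity
      filter_upwards [window_law t_CONT t_UNEQ k' hθ hθ1 hτθ hτ1 hd2, close hθ hτθ s₂ hγ₂,
        (HN_tendsto hθ).eventually_ge_atTop 1] with N w2 d2 hH
      intro x
      rw [← hρ] at d2
      have m1 := c2 _ _ d2.1 d2.2
      have h3 := (count_good h1 h2 (N := N) hH b2 x (ε := ε) hε.le hε1 (w2.2 x) rfl).2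
      obtain ⟨S, hSS⟩ : ∃ S : ℝ, S = ((univ.filter fun v : Fin N => G ε (tN τ N) (HN θ N) (x + ((v : ℕ) : ℤ))).card : ℝ) := ⟨_, rfl⟩
      rw [← hSS] at h3 ⊢
      have hS0 : 0 ≤ S := by rw [hSS]; exact Nat.cast_nonneg _
      have h4 : S * (1 / 2) ≤ S * (1 - ε) ^ k' := mul_le_mul_of_nonneg_left b3 hS0
      have h5 : (iw (cw (fun y : Fin (k' + 1) → ℤ => id1 (Same y)) (tN τ N - tN (θ / th0) N)) (tN (θ / th0) N) (fun _ => 0) +
          ε ^ (2 * ρ - η) / 4) * N ≤ (ε ^ (2 * ρ - η) / 4 + ε ^ (2 * ρ - η) / 4) * N := by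
        apply mul_le_mul_of_nonneg_right _ (Nat.cast_nonneg N)
        linarith
      linarith
    · refine Eventually.of_forall fun N x => ?_
      have h5 : (1 : ℝ) ≤ ε ^ (2 * ρ - η) := Real.one_le_rpow_of_pos_of_le_one_of_nonpos hε hε1 (by linarith)
      have h6 : ((univ.filter fun v : Fin N => G ε (tN τ N) (HN θ N) (x + ((v : ℕ) : ℤ))).card : ℝ) ≤ N := by
        have := card_filter_le (univ : Finset (Fin N)) (fun v : Fin N => G ε (tN τ N) (HN θ N) (x + ((v : ℕ) : ℤ)))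
        rw [card_univ, Fintype.card_fin] at this
        exact_mod_cast this
      have h7 : (N : ℝ) ≤ ε ^ (2 * ρ - η) * N := le_mul_of_one_le_left (Nat.cast_nonneg N) h5
      linarith
  filter_upwards [hlo, hup] with N n1 n2 x
  exact ⟨n1 x, n2 x⟩

end Pool.Agent.J4H39.SM
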