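import Mathlib
import Pool.Agent.R630.WD.Basic
import Pool.Agent.J4H39.SM.T2

set_option autoImplicit false

/-! Project SM: from the integers to the entire function. -/

namespace Pool.Agent.J4H39.SM

open Finset Filter Real
open Pool.Agent.J4H39.SC (vw)
open Pool.Agent.H384R2.Fatou
open Pool.Agent.H723R2.LSW (f₀ Mer Wild)

theorem f_T (t : ℕ) (m : ℤ) : f₀^[t] (m : ℂ) = ((T^[t] m : ℤ) : ℂ) := Pool.Agent.H723R2.LSW.f₀_iter m t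

/-- one integer carries all but `ε H` -/
def One (ε : ℝ) (t H : ℕ) (n : ℤ) : Prop :=
  ∃ w : ℤ, ({h : ℕ | 1 ≤ h ∧ h ≤ H ∧ f₀^[t] ((n + h : ℤ) : ℂ) ≠ (w : ℂ)}.ncard : ℝ) ≤ ε * H

theorem ncard_vw (t H : ℕ) (n w : ℤ) : {h : ℕ | 1 ≤ h ∧ h ≤ H ∧ f₀^[t] ((n + h : ℤ) : ℂ) ≠ (w : ℂ)}.ncard =
    (univ.filter fun h => vw t H n h ≠ w).card := by
  have e : {h : ℕ | 1 ≤ h ∧ h ≤ H ∧ f₀^[t] ((n + h : ℤ) : ℂ) ≠ (w : ℂ)} =
      ((univ.filter fun h => vw t H n h ≠ w).image (fun h : Fin H => (h : ℕ) + 1) : Finset ℕ) := by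
    ext h
    simp only [Set.mem_ofPred_eq, coe_image, coe_filter, mem_univ, true_and, Set.mem_image, f_T, ne_eq, Int.cast_inj]
    unfold vw
    constructor
    · rintro ⟨h1, h2, h3⟩
      refine ⟨⟨h - 1, by omega⟩, ?_, by simp; omega⟩
      intro h4
      apply h3
      rw [← h4]
      congr 1
      simp only
      omega
    · rintro ⟨i, hi, rfl⟩
      refine ⟨by omega, by have := i.2; omega, ?_⟩
      intro h4
      apply hi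
      rw [← h4]
      congr 1
      push_cast
      ring
  rw [e, Set.ncard_coe_finset, Finset.card_image_of_injective]
  intro a b hab
  apply Fin.ext
  simpa using hab

theorem one_iff (ε : ℝ) (t H : ℕ) (n : ℤ) : One ε t H n ↔ G ε t H n := by
  unfold One G
  simp only [ncard_vw]

open Classical in
theorem ncard_one (P : ℤ → Prop) (N : ℕ) (x : ℤ) : {n : ℤ | x ≤ n ∧ n < x + N ∧ P n}.ncard =
    (univ.filter fun v : Fin N => P (x + ((v : ℕ) : ℤ))).card := by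
  have e : {n : ℤ | x ≤ n ∧ n < x + N ∧ P n} =
      ((univ.filter fun v : Fin N => P (x + ((v : ℕ) : ℤ))).image (fun v : Fin N => x + ((v : ℕ) : ℤ)) : Finset ℤ) := by
    ext n
    simp only [Set.mem_ofPred_eq, coe_image, coe_filter, mem_univ, true_and, Set.mem_image]
    constructor
    · rintro ⟨h1, h2, h3⟩
      refine ⟨⟨(n - x).toNat, by omega⟩, ?_, by simp; omega⟩
      simp only
      have : x + (((n - x).toNat : ℕ) : ℤ) = n := by omega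
      rw [this]
      exact h3
    · rintro ⟨v, hv, rfl⟩
      exact ⟨by omega, by have := v.2; omega, hv⟩
  rw [e, Set.ncard_coe_finset, Finset.card_image_of_injective]
  intro a b hab
  apply Fin.ext
  simpa using hab

open Classical in
theorem two_sided (hS : S_SUP) (hL : S_SLO) (h1 : S_P1) (h2 : S_P2) {θ τ : ℝ} (hθ : 0 < θ) (hθ1 : θ < 1)
    (hτθ : θ < τ * th0) (hτ1 : τ * th0 < 1) {η : ℝ} (hη : 0 < η) :
    ∃ ε₀ : ℝ, 0 < ε₀ ∧ ∀ ε : ℝ, 0 < ε → ε ≤ ε₀ → ∃ N₀ : ℕ, ∀ N ≥ N₀, ∀ x : ℤ,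
      ε ^ (2 * (θ / (τ * th0 - θ)) + η) * N ≤
        ({n : ℤ | x ≤ n ∧ n < x + N ∧ One ε (tN τ N) (HN θ N) n}.ncard : ℝ) ∧
      ({n : ℤ | x ≤ n ∧ n < x + N ∧ One ε (tN τ N) (HN θ N) n}.ncard : ℝ) ≤
        ε ^ (2 * (θ / (τ * th0 - θ)) - η) * N := by
  obtain ⟨ε₀, hε₀, h⟩ := main_one hS hL h1 h2 hθ hθ1 hτθ hτ1 hη
  refine ⟨ε₀, hε₀, fun ε hε hεle => ?_⟩
  obtain ⟨N₀, hN⟩ := eventually_atTop.1 (h ε hε hεle)
  refine ⟨N₀, fun N hNN x => ?_⟩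
  have e : {n : ℤ | x ≤ n ∧ n < x + N ∧ One ε (tN τ N) (HN θ N) n}.ncard =
      (univ.filter fun v : Fin N => G ε (tN τ N) (HN θ N) (x + ((v : ℕ) : ℤ))).card := by
    rw [ncard_one]
    simp only [one_iff]
  rw [e]
  exact hN N hNN x

/-- the kinds -/
def Kind (R : Set ℤ) : Prop :=
  R = Pool.Agent.R630.WD.Wn ∨ ∃ (c : ℤ) (p : ℕ), 0 < p ∧ f₀^[p] (c : ℂ) = c ∧ R = Pool.Agent.R630.WD.Bn c p

theorem kind_mer {R : Set ℤ} (hR : Kind R) {x y : ℤ} (h : Mer x y) : x ∈ R ↔ y ∈ R := by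
  rcases hR with rfl | ⟨c, p, hp, hc, rfl⟩
  · exact Pool.Agent.R630.WD.wn_mer h
  · exact Pool.Agent.R630.WD.bn_mer hp hc h

theorem exists_kind (w : ℤ) : ∃ R : Set ℤ, Kind R ∧ w ∈ R := by
  by_cases hw : Wild w
  · exact ⟨_, Or.inl rfl, (Pool.Agent.R630.WD.wn_iff w).2 hw⟩
  · obtain ⟨k, p, a, hp, ha, hk⟩ := Pool.Agent.H723R2.LSW.tame_hits hw
    have ha' : f₀^[p] (a : ℂ) = a := by
      rw [Pool.Agent.H723R2.LSW.f₀_iter, ha]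
    refine ⟨_, Or.inr ⟨a, p, hp, ha', rfl⟩, ?_⟩
    rw [Pool.Agent.R630.WD.bn_iff hp ha']
    exact ⟨k, 0, hk⟩

/-- all but `ε H` of the window are of one kind -/
def Pure (ε : ℝ) (H : ℕ) (n : ℤ) : Prop :=
  ∃ R : Set ℤ, Kind R ∧ ({h : ℕ | 1 ≤ h ∧ h ≤ H ∧ n + h ∉ R}.ncard : ℝ) ≤ ε * H

theorem pure_of_one {ε : ℝ} {t H : ℕ} {n : ℤ} (h : One ε t H n) : Pure ε H n := by
  obtain ⟨w, hw⟩ := h
  obtain ⟨R, hR, hwR⟩ := exists_kind w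
  refine ⟨R, hR, le_trans ?_ hw⟩
  apply Nat.cast_le.2
  apply Set.ncard_le_ncard
  · rintro h ⟨h1, h2, h3⟩
    refine ⟨h1, h2, fun h4 => h3 ?_⟩
    rw [f_T] at h4
    have h5 : T^[t] (n + h) = w := by exact_mod_cast h4
    exact (kind_mer hR (⟨t, 0, h5⟩ : Mer (n + h) w)).2 hwR
  · exact (Set.finite_Icc 1 H).subset fun h hh => ⟨hh.1, hh.2.1⟩

theorem pure_lo (hS : S_SUP) (hL : S_SLO) (h1 : S_P1) (h2 : S_P2) {θ : ℝ} (hθ : 0 < θ) (hθ1 : θ < 1) {η : ℝ} (hη : 0 < η) :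
    ∃ ε₀ : ℝ, 0 < ε₀ ∧ ∀ ε : ℝ, 0 < ε → ε ≤ ε₀ → ∃ N₀ : ℕ, ∀ N ≥ N₀, ∀ x : ℤ,
      ε ^ (2 * θ / (1 - θ) + η) * N ≤ ({n : ℤ | x ≤ n ∧ n < x + N ∧ Pure ε (HN θ N) n}.ncard : ℝ) := by
  have hth := th0_pos
  -- choice of `τ`
  obtain ⟨σ, hσ1, hσ2, hσ3⟩ : ∃ σ : ℝ, θ < σ ∧ σ < 1 ∧ 2 * (θ / (σ - θ)) + η / 2 ≤ 2 * θ / (1 - θ) + η := by
    have hc : Tendsto (fun σ : ℝ => 2 * (θ / (σ - θ))) (nhdsWithin 1 (Set.Iio 1)) (nhds (2 * (θ / (1 - θ)))) := by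
      have : ContinuousAt (fun σ : ℝ => 2 * (θ / (σ - θ))) 1 := by
        apply ContinuousAt.mul continuousAt_const
        apply ContinuousAt.div continuousAt_const (by fun_prop)
        linarith
      exact this.tendsto.mono_left nhdsWithin_le_nhds
    have h3 : 2 * (θ / (1 - θ)) < 2 * θ / (1 - θ) + η / 2 := by
      rw [mul_div_assoc]; linarith
    have h4 := hc.eventually (gt_mem_nhds h3)
    have h5 : ∀ᶠ σ : ℝ in nhdsWithin 1 (Set.Iio 1), σ ∈ Set.Ioo θ 1 := Ioo_mem_nhdsLT hθ1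
    obtain ⟨σ, ha, hb⟩ := (h4.and h5).exists
    exact ⟨σ, hb.1, hb.2, by linarith⟩
  have e : σ / th0 * th0 = σ := by field_simp
  obtain ⟨ε₀, hε₀, h⟩ := two_sided hS hL h1 h2 (θ := θ) (τ := σ / th0) hθ hθ1 (by rw [e]; exact hσ1) (by rw [e]; exact hσ2)
    (half_pos hη)
  rw [e] at h
  refine ⟨min ε₀ 1, lt_min hε₀ one_pos, fun ε hε hεle => ?_⟩
  obtain ⟨N₀, hN⟩ := h ε hε (hεle.trans (min_le_left _ _))
  refine ⟨N₀, fun N hNN x => ?_⟩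
  refine le_trans ?_ ((hN N hNN x).1.trans ?_)
  · apply mul_le_mul_of_nonneg_right _ (Nat.cast_nonneg N)
    exact Real.rpow_le_rpow_of_exponent_ge hε (hεle.trans (min_le_right _ _)) hσ3
  · apply Nat.cast_le.2
    apply Set.ncard_le_ncard
    · rintro n ⟨a, b, c⟩
      exact ⟨a, b, pure_of_one c⟩
    · exact (Set.finite_Ico x (x + N)).subset fun n hn => ⟨hn.1, hn.2.1⟩

end Pool.Agent.J4H39.SM
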